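import Pool.Agent.Lib.MP_e57333_lc.Bridge

set_option autoImplicit false

namespace Pool.Agent.Results.MP_e57333_lc.Profiles

open Pool.Agent.Lib.MP_e57333_lc Encodable Denumerable Nat.Partrec

/-- sanity check: optimal machines exist -/
theorem exists_optimal : ∃ U, Optimal U := by
  refine ⟨fun p y => (Code.eval (ofNat Code (p.idxOf false))
    (encode (p.drop (p.idxOf false + 1), y))).bind fun m => (decode m : Option (List Bool)),
    ?_, fun D hD => ?_⟩
  · refine Partrec.bind (Code.eval_part.comp ((Computable.ofNat _).comp (by fun_prop))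
      (by fun_prop)) (Computable.ofOption (f := fun z : (List Bool × List Bool) × ℕ =>
        (decode z.2 : Option (List Bool))) (by fun_prop))
  · obtain ⟨c, hc⟩ := Code.exists_code.1 hD
    refine ⟨encode c + 1, fun p y x hx => ⟨List.replicate (encode c) true ++ false :: p, ?_, by
      simp; omega⟩⟩
    have hi : (List.replicate (encode c) true ++ false :: p).idxOf false = encode c := by
      rw [List.idxOf_append_of_notMem (by simp)]
      simp
    have hd : (List.replicate (encode c) true ++ false :: p).drop (encode c + 1) = p := by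
      rw [List.drop_append]
      simp
    simp only [hi, hd, ofNat_encode, hc, encodek, Part.mem_bind_iff]
    exact ⟨encode x, ⟨(p, y), by simp, Part.mem_map _ hx⟩, by simp⟩

/-- (a) false over all `q`, true over `q` of polynomial length; (b) false; (c) true; (d) false;
(b) and (d) stay false when the complexity profile of the pair is added to the Wyner profile -/
theorem result (U : List Bool → List Bool →. List Bool) (hU : Optimal U)
    (e : List Bool × List Bool → List Bool) (he : Computable e) (hi : Function.Injective e) :
    (¬ Det (fun _ => GW U) (fun _ => E U e ⊤) ∧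
      ∀ d : ℕ, Det (fun _ => GW U) fun n => E U e (n ^ d : ℕ)) ∧
    (∀ L : ℕ → ℕ∞, (∀ n : ℕ, (n : ℕ∞) ≤ L n) →
      ¬ Det (fun _ => W U e) (fun n => E U e (L n)) ∧
      ¬ Det (fun _ => WP U e) fun n => E U e (L n)) ∧
    Det (fun _ => GW U) (fun _ => W U e) ∧
    (¬ Det (fun _ => W U e) (fun _ => GW U) ∧ ¬ Det (fun _ => WP U e) fun _ => GW U) :=
  ⟨⟨not_det_GW_E hU he hi, det_GW_E hU he hi⟩,
    fun L hL => ⟨fun h => (not_det_WP hU he hi).2 L hL (det_WP h), (not_det_WP hU he hi).2 L hL⟩,
    det_GW_W hU he hi, fun h => (not_det_WP hU he hi).1 (det_WP h), (not_det_WP hU he hi).1⟩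

end Pool.Agent.Results.MP_e57333_lc.Profiles
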